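import Pool.Agent.H86.FW.WDefs
import Pool.Agent.H39.FW.Suf

/-!
# [LIFT] Exponents larger than `n`

Proof. Let `Z1` be a finite complete code containing the reduced words; letters `C = a^n`, `β = b`,
`ε_x = a^(i % n) b^k` (`x = (i, k) ∈ P`), `δ_y = b^l a^(j % n)` (`y = (j, l) ∈ Q`): all different (`Dis`). Over `Z1` the set
`{C, β, ε_x, δ_y C^(j / n)}` is `PreFree` (different first letters); let `Z2` be a finite complete code containing it,
letters `C', β', ε'_x, Δ_y`; over `Z2` the set `{C', β', C'^(i / n) ε'_x, Δ_y}` is `SufFree` (different last letters) and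
finite, so `comp_of_sufFree`; `comp_emb` twice gives the claim.
-/

set_option autoImplicit false

namespace Pool.Agent.H86.FW

open Pool.Agent.H93.TW

/-- two steps: different first letters, then different last letters -/
private theorem two_steps {α : Type} [Finite α] {Z : Finset (List α)} (hZ : IsCode (Z : Set (List α)))
    (hc : IsComplete (Z : Set (List α))) {ι : Type} [Finite ι] (w : ι → {z // z ∈ Z})
    (hw : Function.Injective w) (tail : ι → List {z // z ∈ Z}) (pre : ι → List ι) :
    Comp (Set.range fun i => emb Z (((pre i).map fun j => w j :: tail j).flatten ++ (w i :: tail i))) := by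
  classical
  have := Fintype.ofFinite ι
  have hpre : PreFree ((Finset.univ.image fun i => w i :: tail i : Finset (List {z // z ∈ Z})) :
      Set (List {z // z ∈ Z})) := by
    constructor
    · simp
    · intro x hx y hy hxy
      rw [Finset.coe_image, Finset.coe_univ, Set.image_univ] at hx hy
      obtain ⟨i, rfl⟩ := hx
      obtain ⟨j, rfl⟩ := hy
      simp only at hxy ⊢
      rw [List.cons_prefix_cons] at hxy
      rw [hw hxy.1]
  obtain ⟨Y, g1, g2, g3⟩ := exists_complete _ hpre
  have hY : ∀ i, w i :: tail i ∈ Y := fun i => g1 (Finset.mem_image_of_mem _ (Finset.mem_univ i))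
  set v : ι → {z // z ∈ Y} := fun i => ⟨w i :: tail i, hY i⟩ with hv
  have hvi : Function.Injective v := by
    intro i j h
    have h' : w i :: tail i = w j :: tail j := congrArg Subtype.val h
    exact hw (List.cons.inj h').1
  have hsuf : SufFree (Set.range fun i => (pre i).map v ++ [v i]) := by
    constructor
    · rintro ⟨i, hi⟩
      simp at hi
    · rintro _ ⟨i, rfl⟩ _ ⟨j, rfl⟩ hij
      simp only at hij ⊢
      obtain ⟨u, hu⟩ := hij
      have h1 := congrArg List.getLast? hu
      simp only [← List.append_assoc, List.getLast?_append, List.getLast?_singleton, Option.some_or,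
        Option.some.injEq] at h1
      rw [hvi h1]
  have hX := comp_of_sufFree (Set.finite_range _) hsuf
  have hXY := comp_emb hZ hc (comp_emb g2.isCode g3 hX)
  have he : emb Z '' (emb Y '' (Set.range fun i => (pre i).map v ++ [v i])) =
      Set.range fun i => emb Z (((pre i).map fun j => w j :: tail j).flatten ++ (w i :: tail i)) := by
    rw [← Set.range_comp, ← Set.range_comp]
    congr 1
    funext i
    simp only [Function.comp_apply]
    congr 1
    unfold emb
    rw [List.map_append, List.flatten_append, List.map_map]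
    simp [hv, Function.comp_def]
  rw [← he]
  exact hXY

private theorem emb_rep {α : Type} {Z : Finset (List α)} {a : α} {d : ℕ} (hc : List.replicate d a ∈ Z)
    (l : ℕ) : emb Z (List.replicate l (⟨_, hc⟩ : {z // z ∈ Z})) = List.replicate (l * d) a := by
  unfold emb
  rw [List.map_replicate, List.flatten_replicate_replicate]

private theorem emb_one {α : Type} {Z : Finset (List α)} {w : List α} (hw : w ∈ Z) :
    emb Z [(⟨w, hw⟩ : {z // z ∈ Z})] = w := by simp [emb]

private theorem flat_rep {α : Type} (t : ℕ) (c : α) :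
    (List.replicate t [c]).flatten = List.replicate t c := by
  induction t with
  | zero => rfl
  | succ t ih => rw [List.replicate_succ, List.flatten_cons, ih, List.replicate_succ]; rfl

theorem lift {α : Type} [Finite α] {a b : α} (hab : a ≠ b) {n : ℕ} (hn : 1 ≤ n) {P Q : Finset (ℕ × ℕ)}
    (hP : Pos P) (hQ : Pos Q) (hPd : Dis n P) (hQd : Dis n Q)
    (h : Comp (Wd a b n (P.image fun x => (x.1 % n, x.2)) (Q.image fun x => (x.1 % n, x.2)))) :
    Comp (Wd a b n P Q) := by
  classical
  obtain ⟨Z, h1, h2, h3⟩ := h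
  have hC : List.replicate n a ∈ Z := by
    have := h1 (show List.replicate n a ∈ Wd a b n _ _ from Or.inl rfl)
    exact Finset.mem_coe.1 this
  have hβ : [b] ∈ Z := by
    have := h1 (show [b] ∈ Wd a b n _ _ from Or.inr (Or.inl rfl))
    exact Finset.mem_coe.1 this
  have hε : ∀ x : {x // x ∈ P}, List.replicate (x.1.1 % n) a ++ List.replicate x.1.2 b ∈ Z := by
    intro x
    have := h1 (show List.replicate (x.1.1 % n) a ++ List.replicate x.1.2 b ∈ Wd a b n _ _ from
      Or.inr (Or.inr (Or.inl ⟨(x.1.1 % n, x.1.2), Finset.mem_image.2 ⟨x.1, x.2, rfl⟩, rfl⟩)))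
    exact Finset.mem_coe.1 this
  have hδ : ∀ y : {y // y ∈ Q}, List.replicate y.1.2 b ++ List.replicate (y.1.1 % n) a ∈ Z := by
    intro y
    have := h1 (show List.replicate y.1.2 b ++ List.replicate (y.1.1 % n) a ∈ Wd a b n _ _ from
      Or.inr (Or.inr (Or.inr ⟨(y.1.1 % n, y.1.2), Finset.mem_image.2 ⟨y.1, y.2, rfl⟩, rfl⟩)))
    exact Finset.mem_coe.1 this
  have hmod : ∀ {R : Finset (ℕ × ℕ)}, Dis n R → ∀ x ∈ R, 1 ≤ x.1 % n := by
    intro R hR x hx
    rcases Nat.eq_zero_or_pos (x.1 % n) with h0 | h0
    · exact absurd (Nat.dvd_of_mod_eq_zero h0) (hR.1 x hx)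
    · exact h0
  have hmod2 : ∀ {R : Finset (ℕ × ℕ)}, Dis n R → ∀ x ∈ R, ∀ y ∈ R, x.1 % n = y.1 % n → x = y := by
    intro R hR x hx y hy hxy
    by_contra hne
    apply hR.2 x hx y hy hne
    have h4 : (x.1 : ℤ) % n = (y.1 : ℤ) % n := by exact_mod_cast hxy
    exact Int.ModEq.dvd (show (y.1 : ℤ) ≡ x.1 [ZMOD n] from h4.symm)
  set w : Bool ⊕ ({x // x ∈ P} ⊕ {y // y ∈ Q}) → {z // z ∈ Z} := fun i => match i with
    | .inl false => ⟨_, hC⟩
    | .inl true => ⟨_, hβ⟩
    | .inr (.inl x) => ⟨_, hε x⟩
    | .inr (.inr y) => ⟨_, hδ y⟩ with hwdef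
  -- heads and counts distinguish the words
  have hb1 : ∀ k l : ℕ, 1 ≤ l → List.replicate n a ≠ List.replicate k a ++ List.replicate l b := by
    intro k l hl e
    have : b ∈ List.replicate n a := by rw [e]; simp; omega
    exact hab (List.eq_of_mem_replicate this).symm
  have hb2 : ∀ k l : ℕ, 1 ≤ l → List.replicate n a ≠ List.replicate l b ++ List.replicate k a := by
    intro k l hl e
    have : b ∈ List.replicate n a := by rw [e]; simp; omega
    exact hab (List.eq_of_mem_replicate this).symm
  have hb3 : List.replicate n a ≠ [b] := by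
    intro e
    have : b ∈ List.replicate n a := by rw [e]; simp
    exact hab (List.eq_of_mem_replicate this).symm
  have hb4 : ∀ k l : ℕ, 1 ≤ k → [b] ≠ List.replicate k a ++ List.replicate l b := by
    intro k l hk e
    obtain ⟨k, rfl⟩ : ∃ m, k = m + 1 := ⟨k - 1, by omega⟩
    rw [List.replicate_succ, List.cons_append] at e
    exact hab (List.cons.inj e).1.symm
  have hb5 : ∀ k l : ℕ, 1 ≤ k → 1 ≤ l → [b] ≠ List.replicate l b ++ List.replicate k a := by
    intro k l hk hl e
    have := congrArg List.length e
    simp at this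
    omega
  have hb6 : ∀ k l k' l' : ℕ, 1 ≤ k → 1 ≤ l' → List.replicate k a ++ List.replicate l b ≠
      List.replicate l' b ++ List.replicate k' a := by
    intro k l k' l' hk hl e
    obtain ⟨k, rfl⟩ : ∃ m, k = m + 1 := ⟨k - 1, by omega⟩
    obtain ⟨l', rfl⟩ : ∃ m, l' = m + 1 := ⟨l' - 1, by omega⟩
    rw [List.replicate_succ, List.cons_append, List.replicate_succ, List.cons_append] at e
    exact hab (List.cons.inj e).1
  have hcnt1 : ∀ k l : ℕ, (List.replicate k a ++ List.replicate l b).count a = k := by
    intro k l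
    rw [List.count_append, List.count_replicate_self, List.count_replicate]
    simp [hab.symm]
  have hcnt2 : ∀ k l : ℕ, (List.replicate l b ++ List.replicate k a).count a = k := by
    intro k l
    rw [List.count_append, List.count_replicate_self, List.count_replicate]
    simp [hab.symm]
  have hwi : Function.Injective w := by
    rintro ((_ | _) | (x | y)) ((_ | _) | (x' | y')) hij
    · rfl
    · exact absurd (congrArg Subtype.val hij) hb3
    · exact absurd (congrArg Subtype.val hij) (hb1 _ _ (hP x'.1 x'.2).2)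
    · exact absurd (congrArg Subtype.val hij) (hb2 _ _ (hQ y'.1 y'.2).2)
    · exact absurd (congrArg Subtype.val hij).symm hb3
    · rfl
    · exact absurd (congrArg Subtype.val hij) (hb4 _ _ (hmod hPd x'.1 x'.2))
    · exact absurd (congrArg Subtype.val hij) (hb5 _ _ (hmod hQd y'.1 y'.2) (hQ y'.1 y'.2).2)
    · exact absurd (congrArg Subtype.val hij).symm (hb1 _ _ (hP x.1 x.2).2)
    · exact absurd (congrArg Subtype.val hij).symm (hb4 _ _ (hmod hPd x.1 x.2))
    · have e : List.replicate (x.1.1 % n) a ++ List.replicate x.1.2 b =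
          List.replicate (x'.1.1 % n) a ++ List.replicate x'.1.2 b := congrArg Subtype.val hij
      have e' := congrArg (List.count a) e
      rw [hcnt1, hcnt1] at e'
      rw [Subtype.ext (hmod2 hPd _ x.2 _ x'.2 e')]
    · exact absurd (congrArg Subtype.val hij) (hb6 _ _ _ _ (hmod hPd x.1 x.2) (hQ y'.1 y'.2).2)
    · exact absurd (congrArg Subtype.val hij).symm (hb2 _ _ (hQ y.1 y.2).2)
    · exact absurd (congrArg Subtype.val hij).symm (hb5 _ _ (hmod hQd y.1 y.2) (hQ y.1 y.2).2)
    · exact absurd (congrArg Subtype.val hij).symm (hb6 _ _ _ _ (hmod hPd x'.1 x'.2) (hQ y.1 y.2).2)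
    · have e : List.replicate y.1.2 b ++ List.replicate (y.1.1 % n) a =
          List.replicate y'.1.2 b ++ List.replicate (y'.1.1 % n) a := congrArg Subtype.val hij
      have e' := congrArg (List.count a) e
      rw [hcnt2, hcnt2] at e'
      rw [Subtype.ext (hmod2 hQd _ y.2 _ y'.2 e')]
  have key := two_steps h2 h3 w hwi
    (fun i => match i with
      | .inl _ => []
      | .inr (.inl _) => []
      | .inr (.inr y) => List.replicate (y.1.1 / n) ⟨_, hC⟩)
    (fun i => match i with
      | .inl _ => []
      | .inr (.inl x) => List.replicate (x.1.1 / n) (.inl false)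
      | .inr (.inr _) => [])
  refine Comp.mono ?_ key
  rintro u (rfl | rfl | ⟨x, hx, rfl⟩ | ⟨y, hy, rfl⟩)
  · exact ⟨.inl false, emb_one hC⟩
  · exact ⟨.inl true, emb_one hβ⟩
  · refine ⟨.inr (.inl ⟨x, hx⟩), ?_⟩
    simp only [List.map_replicate, hwdef]
    rw [flat_rep, emb_append, emb_rep, emb_one, ← List.append_assoc, List.replicate_append_replicate]
    have : x.1 / n * n + x.1 % n = x.1 := by rw [mul_comm]; exact Nat.div_add_mod _ _
    rw [this]
  · refine ⟨.inr (.inr ⟨y, hy⟩), ?_⟩
    simp only [List.map_nil, List.flatten_nil, List.nil_append, hwdef]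
    rw [← List.singleton_append, emb_append, emb_rep, emb_one, List.append_assoc,
      List.replicate_append_replicate]
    have : y.1 % n + y.1 / n * n = y.1 := by rw [mul_comm]; exact Nat.mod_add_div _ _
    rw [this]

end Pool.Agent.H86.FW
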